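import Pool.Agent.W182.KO.Fin3

set_option autoImplicit false

/-!
# Shifted moments averaged over the common shift, with a power saving
-/

namespace Pool.Agent.Results.MP_fa2474_nt.EdgeBandsPowerSaving

open Complex MeasureTheory Filter Topology
open scoped ContDiff

/-- `Z_{a,b}(t) = ∏_j ζ(1/2 + i(t+a_j)) ζ(1/2 - i(t+b_j))`. -/
noncomputable def Z {k : ℕ} (a b : Fin k → ℝ) (t : ℝ) : ℂ :=
  ∏ j, (riemannZeta (1 / 2 + I * (t + a j)) * riemannZeta (1 / 2 - I * (t + b j)))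

/-- `τ_l(n) = ∑_{d_1 ⋯ d_k = n} ∏_j d_j^{l_j}`. -/
noncomputable def tau {k : ℕ} (l : Fin k → ℂ) (n : ℕ) : ℂ :=
  ∑ d ∈ Nat.finMulAntidiag k n, ∏ j, (d j : ℂ) ^ (l j)

/-- The weight `φ(x) = ∫ ψ(ξ) e^{iξx} dξ`. -/
noncomputable def phi (ψ : ℝ → ℂ) (x : ℝ) : ℂ := ∫ ξ : ℝ, ψ ξ * exp (I * ξ * x)

/-- The moment averaged over the common shift `y` (`α ↦ α + y`, `β ↦ β - y`) against
`φ(y log T)`. -/
noncomputable def averagedMoment {k : ℕ} (α β : Fin k → ℝ) (ψ : ℝ → ℂ) (T : ℝ) : ℂ :=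
  ∫ y : ℝ, phi ψ (y * Real.log T) *
    ∫ t in (0:ℝ)..T, Z (fun j => α j + y) (fun j => β j - y) t

/-- The term with no swaps. -/
noncomputable def zeroSwap {k : ℕ} (α β : Fin k → ℝ) (ψ : ℝ → ℂ) (T : ℝ) : ℂ :=
  (T : ℂ) * ∑' n : ℕ, tau (fun j => -(I * α j)) n * tau (fun j => I * β j) n / n *
    ψ (2 * Real.log n / Real.log T)

/-- The term with all `k` swaps. -/
noncomputable def fullSwap {k : ℕ} (α β : Fin k → ℝ) (ψ : ℝ → ℂ) (T : ℝ) : ℂ :=
  ∑' n : ℕ, tau (fun j => I * α j) n * tau (fun j => -(I * β j)) n / n *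
    ∫ t in (1:ℝ)..T, exp (-(I * (∑ j, (α j - β j)) * Real.log (t / (2 * Real.pi)))) *
      ψ ((2 * k * Real.log (t / (2 * Real.pi)) - 2 * Real.log n) / Real.log T)

/-- **The averaged moment conjecture with a power saving near both spectral edges.** -/
theorem result (k : ℕ) (hk : 1 ≤ k) (α β : Fin k → ℝ) (ψ₁ ψ₂ : ℝ → ℂ)
    (h₁ : ContDiff ℝ ∞ ψ₁) (c₁ : HasCompactSupport ψ₁) (h₂ : ContDiff ℝ ∞ ψ₂)
    (c₂ : HasCompactSupport ψ₂) (ξ₁ ξ₂ θ : ℝ) (s₁ : ∀ ξ, ξ₁ < ξ → ψ₁ ξ = 0)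
    (s₂ : ∀ ξ, ξ < ξ₂ → ψ₂ ξ = 0) (hθ : 1 / 2 ≤ θ) (hθ1 : θ ≤ 1) (ha : ξ₁ / 2 < θ)
    (hb : (2 * k - ξ₂) / 2 < θ) :
    (∀ T : ℝ, Real.exp 1 ≤ T → Integrable (fun y : ℝ =>
      phi (fun ξ => ψ₁ ξ + ψ₂ ξ) (y * Real.log T) *
        ∫ t in (0:ℝ)..T, Z (fun j => α j + y) (fun j => β j - y) t)) ∧
    ∃ C T₀ : ℝ, ∀ T : ℝ, T₀ ≤ T →
      ‖averagedMoment α β (fun ξ => ψ₁ ξ + ψ₂ ξ) T -
        (2 * Real.pi / Real.log T : ℝ) * (zeroSwap α β ψ₁ T + fullSwap α β ψ₂ T)‖ ≤ C * T ^ θ := by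
  obtain ⟨X, hX0, hX⟩ := W182.KO.exists_TF h₁ c₁
  obtain ⟨Y, hY0, hY⟩ := W182.KO.exists_TF h₂ c₂
  have hphi : ∀ T y : ℝ, phi (fun ξ => ψ₁ ξ + ψ₂ ξ) (y * Real.log T) =
      W182.KO.P ψ₁ (Real.log T * y * I) + W182.KO.P ψ₂ (Real.log T * y * I) := by
    intro T y
    unfold phi W182.KO.P
    rw [← integral_add (hX.int_exp _) (hY.int_exp _)]
    congr 1; funext ξ
    rw [← add_mul]
    congr 2
    push_cast
    ring
  have hZ : ∀ y t : ℝ, Z (fun j => α j + y) (fun j => β j - y) t =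
      W182.KO.ZP α (1 / 2 + (y + t : ℝ) * I) * W182.KO.ZP (fun j => -β j) (1 / 2 + (y - t : ℝ) * I) := by
    intro y t
    unfold Z W182.KO.ZP
    rw [← Finset.prod_mul_distrib]
    refine Finset.prod_congr rfl fun j _ => ?_
    congr 2
    · push_cast; ring
    · push_cast; ring
  constructor
  · intro T hT
    simp only [hphi, hZ]
    have i1 := W182.KO.J_integrable hX α (fun j => -β j) hT
    have i2 := W182.KO.J_integrable hY α (fun j => -β j) hT
    refine (i1.add i2).congr (Eventually.of_forall fun y => ?_)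
    simp only [Pi.add_apply]
    rw [add_mul]
  · obtain ⟨C, T0, _, hc⟩ := W182.KO.general hk α (fun j => -β j) h₁ c₁ h₂ c₂ s₁ s₂ hθ hθ1 ha hb
    refine ⟨C, T0, fun T hT => ?_⟩
    have h3 := hc T hT
    have e1 : averagedMoment α β (fun ξ => ψ₁ ξ + ψ₂ ξ) T =
        ∫ y : ℝ, (W182.KO.P ψ₁ (Real.log T * y * I) + W182.KO.P ψ₂ (Real.log T * y * I)) *
          (∫ t in (0:ℝ)..T, W182.KO.ZP α (1 / 2 + (y + t : ℝ) * I) *
            W182.KO.ZP (fun j => -β j) (1 / 2 + (y - t : ℝ) * I)) := by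
      unfold averagedMoment
      simp only [hphi, hZ]
    have e2 : zeroSwap α β ψ₁ T = (T : ℂ) * (∑' n : ℕ, W182.KO.tau (fun j => -(α j * I)) n *
        W182.KO.tau (fun j => -((-β j : ℝ) * I)) n / n * ψ₁ (2 * Real.log n / Real.log T)) := by
      unfold zeroSwap
      congr 1
      refine tsum_congr fun n => ?_
      have a1 : (fun j : Fin k => -(I * (α j : ℂ))) = fun j => -(α j * I) := by
        funext j; ring
      have a2 : (fun j : Fin k => I * (β j : ℂ)) = fun j => -(((-β j : ℝ) : ℂ) * I) := by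
        funext j; push_cast; ring
      rw [a1, a2]
      rfl
    have e3 : fullSwap α β ψ₂ T = ∑' n : ℕ, W182.KO.tau (fun j => (-β j : ℝ) * I) n *
        W182.KO.tau (fun j => α j * I) n / n *
          ∫ t in (1:ℝ)..T, exp ((-(∑ j, (α j + -β j)) * Real.log (t / (2 * Real.pi)) : ℝ) * I) *
            ψ₂ ((2 * k * Real.log (t / (2 * Real.pi)) - 2 * Real.log n) / Real.log T) := by
      unfold fullSwap
      refine tsum_congr fun n => ?_
      have a1 : (fun j : Fin k => I * (α j : ℂ)) = fun j => α j * I := by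
        funext j; ring
      have a2 : (fun j : Fin k => -(I * (β j : ℂ))) = fun j => ((-β j : ℝ) : ℂ) * I := by
        funext j; push_cast; ring
      have a3 : ∀ t : ℝ, exp (-(I * ((∑ j, (α j - β j) : ℝ) : ℂ) * Real.log (t / (2 * Real.pi)))) =
          exp ((-(∑ j, (α j + -β j)) * Real.log (t / (2 * Real.pi)) : ℝ) * I) := by
        intro t
        congr 1
        have : ∑ j, (α j - β j) = ∑ j, (α j + -β j) :=
          Finset.sum_congr rfl fun j _ => by ring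
        rw [this]
        push_cast
        ring
      rw [a1, a2]
      simp only [a3]
      change W182.KO.tau _ n * W182.KO.tau _ n / n * _ = _
      rw [mul_comm (W182.KO.tau (fun j => (α j : ℂ) * I) n)]
    rw [e1, e2, e3]
    exact h3

end Pool.Agent.Results.MP_fa2474_nt.EdgeBandsPowerSaving
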